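import Mathlib

/-!
The fixed point of `1 ↦ 12122121`, `2 ↦ 2` is not `k`-automatic for any `k ≥ 2`.
-/

namespace Pool.Agent.Results.MP_ad6ded_lc.Never

/-- The words `x₁, x₂, …` (`x n` is `x_{n+1}`). -/
def x : ℕ → List (Fin 3)
  | 0 => [1, 2]
  | n + 1 => x n ++ x n ++ (x n).reverse ++ (x n).reverse ++ [2]

/-- The infinite word. -/
def word (i : ℕ) : Fin 3 := (x i).getD i 0

/-- The `k`-kernel of a sequence. -/
def kernel (k : ℕ) (a : ℕ → Fin 3) : Set (ℕ → Fin 3) :=
  {f | ∃ e j : ℕ, j < k ^ e ∧ f = fun n => a (k ^ e * n + j)}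

lemma pal (n : ℕ) : ∃ u, x n = u ++ [2] ∧ u.reverse = u ∧ n < u.length := by
  induction n with
  | zero => exact ⟨[1], rfl, rfl, by simp⟩
  | succ n i =>
    obtain ⟨u, a, b, c⟩ := i
    exact ⟨u ++ 2 :: u ++ 2 :: 2 :: u ++ 2 :: u, by simp [x, a, b], by simp [b], by simp; omega⟩

lemma main (a : ℕ → Fin 3) (ha : ∀ n i (h : i < (x n).length), a i = (x n)[i]) (k : ℕ)
    (hk : 2 ≤ k) : (kernel k a).Infinite := by
  classical
  have L (m : ℕ) : m + 1 < (x m).length := by
    obtain ⟨u, p, q, r⟩ := pal m
    simp [p, r]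
  have F (m i : ℕ) (l : i < (x m).length) : a (i + (x m).length) = a i := by
    rw [ha (m + 1) _ (by simp [x]; omega), ha m i l]
    simp only [x, List.append_assoc]
    rw [List.getElem_append_right (by omega), List.getElem_append_left (by omega)]
    simp
  have G (m i : ℕ) (l : i ≤ m) : a (i + (2 * (x m).length + 1)) = a i := by
    obtain ⟨u, p, q, r⟩ := pal m
    rw [ha (m + 1) _ (by simp [x, p]; omega), ha m i (by simp [p]; omega)]
    have e : x (m + 1) = (u ++ 2 :: u ++ [2, 2]) ++ (u ++ 2 :: u ++ [2]) := by simp [x, p, q]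
    simp only [e, p]
    rw [List.getElem_append_right (by simp; omega)]
    simp only [List.append_assoc]
    rw [List.getElem_append_left (by simp; omega), List.getElem_append_left (by omega)]
    congr 1
    simp; omega
  have R (M T ρ : ℕ) (h : 0 < M) : ∃ P, P ≡ ρ [MOD M] ∧ ∀ t < T, a (t + P) = a t := by
    obtain ⟨c, hc⟩ := Finite.exists_infinite_fiber fun m =>
      (⟨(x m).length % M, Nat.mod_lt _ h⟩ : Fin M)
    have hc (N) : ∃ m, N ≤ m ∧ (x m).length ≡ c [MOD M] := by
      obtain ⟨m, p, q⟩ := (Set.infinite_coe_iff.1 hc).exists_gt N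
      exact ⟨m, q.le, by rw [← p]; exact (Nat.mod_modEq _ _).symm⟩
    have (i j : ℕ) : ∃ P, P ≡ i * c + j * (2 * c + 1) [MOD M] ∧ ∀ t < T, a (t + P) = a t := by
      induction i with
      | zero =>
        induction j with
        | zero => exact ⟨0, by simp [Nat.ModEq], fun _ _ => rfl⟩
        | succ j i =>
          obtain ⟨P, p, q⟩ := i
          obtain ⟨m, r, s⟩ := hc (T + P)
          exact ⟨P + (2 * (x m).length + 1), by
            simpa [add_mul] using p.add ((s.mul_left 2).add_right 1), fun t l => by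
              rw [← add_assoc, G _ _ (by omega), q t l]⟩
      | succ i' i =>
        obtain ⟨P, p, q⟩ := i
        obtain ⟨m, r, s⟩ := hc (T + P)
        exact ⟨P + (x m).length, by
          simpa [add_mul, add_right_comm] using p.add s, fun t l => by
            rw [← add_assoc, F _ _ (by have := L m; omega), q t l]⟩
    obtain ⟨M, rfl⟩ := Nat.exists_eq_add_of_lt h
    obtain ⟨P, p, q⟩ := this (2 * M * ρ) ρ
    exact ⟨P, p.trans (by
      rw [show 2 * M * ρ * c + ρ * (2 * c + 1) = ρ + (0 + M + 1) * (2 * ρ * c) by ring]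
      simp [Nat.ModEq]), q⟩
  have N (i d : ℕ) : ∃ j, 0 < d → a (i + j) ≠ a (i + d + j) := by
    by_contra! n
    have p : Function.Periodic (fun j => a (i + j)) d := fun j => by
      simp only [(n j).2, add_assoc, add_comm d]
    obtain ⟨P, q, r⟩ := R d ((x i).length + 1) 1 (n 0).1
    have := p.map_mod_nat ((x i).length - i + P)
    rw [(q.add_left _ : _ % _ = _), p.map_mod_nat] at this
    have l := L i
    simp only [← add_assoc, show i + ((x i).length - i) = (x i).length by omega] at this
    rw [r _ (by omega), add_comm, F i 1 (by omega), ← zero_add (x i).length, F i 0 (by omega),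
      ha 0 1 (by decide), ha 0 0 (by decide)] at this
    exact absurd this (by decide)
  choose J N using N
  intro K
  have := K.fintype
  let C := Fintype.card (kernel k a → Fin 3)
  let e := (Finset.range (C + 1) ×ˢ Finset.range (C + 1)).sup fun q => J q.1 q.2
  have k0 : 0 < k ^ e := by positivity
  choose P p q using fun i => R (k ^ e) (i + k ^ e) ((k ^ e - 1) * i) k0
  have d (i) : k ^ e * ((i + P i) / k ^ e) = i + P i := Nat.mul_div_cancel' ((Nat.modEq_zero_iff_dvd).1
    (((p i).add_left i).trans ((Nat.modEq_zero_iff_dvd).2 ⟨i, by zify [k0]; ring⟩)))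
  have key (i i' : Fin (C + 1)) (l : i < i') (o : (fun z : kernel k a => z.1 ((i + P i) / k ^ e)) =
      fun z => z.1 ((i' + P i') / k ^ e)) : False := by
    have j : J i (i' - i) < k ^ e := lt_of_le_of_lt (Finset.le_sup (f := fun q : ℕ × ℕ => J q.1 q.2)
      (b := (i, i' - i)) (by simp; omega)) (Nat.lt_pow_self (by omega))
    have := congrFun o ⟨_, e, _, j, rfl⟩
    simp only [d] at this
    rw [add_right_comm, add_right_comm (i' : ℕ), q _ _ (by omega), q _ _ (by omega)] at this
    exact N i (i' - i) (by omega) (by rwa [show (i : ℕ) + (i' - i) = i' by omega])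
  obtain ⟨i, i', n, o⟩ := Fintype.exists_ne_map_eq_of_card_lt
    (fun (i : Fin (C + 1)) (z : kernel k a) => z.1 ((i + P i) / k ^ e)) (by simp [C])
  exact n.lt_or_gt.elim (key _ _ · o) (key _ _ · o.symm)

theorem result : (∀ n i (h : i < (x n).length), word i = (x n)[i]) ∧
    ∀ k, 2 ≤ k → (kernel k word).Infinite := by
  have p {m n : ℕ} (l : m ≤ n) : x m <+: x n := by
    induction n, l using Nat.le_induction with
    | base => rfl
    | succ n _ i => exact i.trans (by simp [x])
  have (n i) (h : i < (x n).length) : word i = (x n)[i] := by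
    obtain ⟨u, a, -, c⟩ := pal i
    have l : i < (x i).length := by simp [a]; omega
    rw [word, List.getD_eq_getElem _ _ l, (p (le_max_left i n)).getElem,
      (p (le_max_right i n)).getElem]
  exact ⟨this, main _ this⟩

end Pool.Agent.Results.MP_ad6ded_lc.Never
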